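import Pool.Agent.MP_5fbfa0_co.Assembly

set_option autoImplicit false

namespace Pool.Agent.Results.MP_5fbfa0_co.LockedRatioOne

open Pool.Agent.MP_5fbfa0_co

/-- The infimum `L` of the length ratios of the open chains that have a locked configuration in
space is `1`. More precisely, for every `ε > 0` there is an open chain with 18 links whose length
ratio is less than `1 + ε` and which has a locked configuration. -/
theorem result :
    (∀ ε : ℝ, 0 < ε → ∃ ℓ : Fin 18 → ℝ,
      (∀ i, 0 < ℓ i) ∧ (∃ q, IsLocked ℓ q) ∧ lengthRatio ℓ < 1 + ε) ∧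
    IsGLB lockedRatios 1 ∧ lockedConstant = 1 :=
  ⟨exists_ratio_lt, isGLB_lockedRatios, lockedConstant_eq⟩

end Pool.Agent.Results.MP_5fbfa0_co.LockedRatioOne
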